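import Pool.Agent.helper15.XE.SpecL
import Pool.Agent.helper70.GD.BV

/-! # Row xe:BVE: the main part of the primes in progressions, for sets of windows (port of helper77/W3/BVE.lean) -/

set_option autoImplicit false

namespace Pool.Agent.XE

open Finset ArithmeticFunction
open Pool.Agent.EC (tri TL wt mt Adm edg mnf tI tII tyI cvl KK yN UN)
open Pool.Agent.CH (rgh Mo ClP ClB)
open GD (kp ks)

private theorem BVE_coprime (r : ℕ → ℕ) (hr : ClP r) (m : ℕ) (hm : 0 < m) (h30 : Nat.Coprime m 30) :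
    Nat.Coprime (r m) (30 * m) := by
  obtain ⟨h1, h2⟩ := hr m hm h30
  refine Nat.Coprime.mul_right ?_ ?_
  · have h3 : Nat.gcd (r m) 30 = Nat.gcd 1 30 := h1.gcd_eq
    rw [Nat.Coprime, h3]
    norm_num
  · rw [Nat.coprime_iff_gcd_eq_one]
    have h3 : Nat.gcd (r m) m ∣ 6 := by
      have h4 : Nat.gcd (r m) m ∣ r m + 6 := (Nat.gcd_dvd_right _ _).trans h2
      exact (Nat.dvd_add_right (Nat.gcd_dvd_left _ _)).mp h4
    have h4 : Nat.gcd (r m) m ∣ 30 := h3.trans (by norm_num)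
    have h5 : Nat.gcd (r m) m ∣ Nat.gcd m 30 := Nat.dvd_gcd (Nat.gcd_dvd_right _ _) h4
    rw [h30] at h5
    exact Nat.dvd_one.mp h5

private theorem BVE_inv (N : ℕ) (L θ : ℝ) (hLe : L = Real.log N) (hL : 12 ≤ L) (hN0 : 0 < N) (hθ : θ ≤ 1) :
    ∑ m ∈ Mo ((N : ℝ) ^ θ), 1 / (Nat.totient (30 * m) : ℝ) ≤ 6 * L ^ 2 := by
  set Q := ⌊(N : ℝ) ^ θ⌋₊ with hQ
  have hQN : Q ≤ N := by
    have h5 : (N : ℝ) ^ θ ≤ (N : ℝ) ^ (1 : ℝ) := by
      refine Real.rpow_le_rpow_of_exponent_le ?_ hθ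
      exact_mod_cast hN0
    rw [Real.rpow_one] at h5
    exact Nat.floor_le_of_le h5
  have hMo : ∀ m ∈ Mo ((N : ℝ) ^ θ), 0 < m ∧ m ≤ Q := by
    intro m hm
    unfold Mo at hm
    rw [mem_filter, mem_Icc] at hm
    exact ⟨hm.1.1, hm.1.2⟩
  have h5 : ∑ m ∈ Mo ((N : ℝ) ^ θ), 1 / (Nat.totient (30 * m) : ℝ) ≤
      ∑ m ∈ Icc 1 Q, 1 / (Nat.totient m : ℝ) := by
    calc ∑ m ∈ Mo ((N : ℝ) ^ θ), 1 / (Nat.totient (30 * m) : ℝ)
        ≤ ∑ m ∈ Mo ((N : ℝ) ^ θ), 1 / (Nat.totient m : ℝ) := by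
          refine sum_le_sum fun m hm => ?_
          obtain ⟨hm0, _⟩ := hMo m hm
          have h6 : (0 : ℝ) < Nat.totient m := by exact_mod_cast Nat.totient_pos.mpr hm0
          refine one_div_le_one_div_of_le h6 ?_
          have h7 : Nat.totient m ≤ Nat.totient (30 * m) :=
            Nat.le_of_dvd (Nat.totient_pos.mpr (by omega))
              (Nat.totient_dvd_of_dvd (Nat.dvd_mul_left m 30))
          exact_mod_cast h7
      _ ≤ ∑ m ∈ Icc 1 Q, 1 / (Nat.totient m : ℝ) := by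
          refine sum_le_sum_of_subset_of_nonneg ?_ (fun m _ _ => by positivity)
          intro m hm
          obtain ⟨hm0, hmQ⟩ := hMo m hm
          rw [mem_Icc]
          exact ⟨hm0, hmQ⟩
  refine h5.trans ?_
  rcases Nat.eq_zero_or_pos Q with h | h
  · rw [h]
    simp only [Icc_eq_empty_of_lt zero_lt_one, sum_empty]
    positivity
  · refine (GD.BV_sum_inv Q h).trans ?_
    have h6 : Real.log Q ≤ L := by
      rw [hLe]
      exact Real.log_le_log (by exact_mod_cast h) (by exact_mod_cast hQN)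
    have h7 : 0 ≤ Real.log Q := Real.log_natCast_nonneg Q
    nlinarith

/-- the part of small conductors, for a set of windows -/
private theorem BVE_small (N C R₀ M a : ℕ) (V : Finset ℝ) (T : ℝ)
    (H : ∀ v ∈ V, |∑ j ∈ Z3 N, mnf C N j * wv N v j * ks R₀ M a j -
      1 / (Nat.totient M : ℝ) * ∑ j ∈ Z3 N, mnf C N j * wv N v j| ≤ T) :
    |∑ j ∈ Z3 N, mnf C N j * fV N V j * ks R₀ M a j -
      1 / (Nat.totient M : ℝ) * ∑ j ∈ Z3 N, mnf C N j * fV N V j| ≤ #V * T := by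
  have e1 : ∑ j ∈ Z3 N, mnf C N j * fV N V j * ks R₀ M a j =
      ∑ v ∈ V, ∑ j ∈ Z3 N, mnf C N j * wv N v j * ks R₀ M a j := by
    rw [sum_comm]
    refine sum_congr rfl fun j _ => ?_
    unfold fV
    rw [mul_sum, sum_mul]
  have e2 : ∑ j ∈ Z3 N, mnf C N j * fV N V j = ∑ v ∈ V, ∑ j ∈ Z3 N, mnf C N j * wv N v j := by
    rw [sum_comm]
    refine sum_congr rfl fun j _ => ?_
    unfold fV
    rw [mul_sum]
  rw [e1, e2, mul_sum, ← sum_sub_distrib]
  refine (abs_sum_le_sum_abs _ _).trans ?_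
  refine (sum_le_sum H).trans ?_
  rw [sum_const, nsmul_eq_mul]

theorem BVE (h1 : LCE_stmt) (h2 : SMP_stmt) : BVE_stmt := by
  intro A
  obtain ⟨B, C, N₁, H1⟩ := h1 (A + 1)
  obtain ⟨N₂, H2⟩ := h2 (A + 3) (B + 1) C
  refine ⟨C, max (max N₁ N₂) ⌈Real.exp 12⌉₊, ?_⟩
  intro N hN V hV r hr
  have hN1 : N₁ ≤ N := (le_max_left _ _).trans ((le_max_left _ _).trans hN)
  have hN2 : N₂ ≤ N := (le_max_right _ _).trans ((le_max_left _ _).trans hN)
  have hNe : Real.exp 12 ≤ N := (Nat.le_ceil _).trans (by exact_mod_cast (le_max_right _ _).trans hN)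
  have hNpos : (0 : ℝ) < N := (Real.exp_pos _).trans_le hNe
  have hN0 : 0 < N := by exact_mod_cast hNpos
  have hL : 12 ≤ Real.log N := by
    rw [← Real.log_exp 12]
    exact Real.log_le_log (Real.exp_pos _) hNe
  have hinv := BVE_inv N (Real.log N) (104 / 125) rfl hL hN0 (by norm_num)
  have HA := H1 N hN1 V hV r hr
  have hQd : QV N = (N : ℝ) ^ (104 / 125 : ℝ) := rfl
  rw [hQd] at HA ⊢
  set L := Real.log N with hLdef
  have hL0 : 0 < L := by linarith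
  set R₀ := ⌈L ^ B⌉₊ with hR₀
  have hR₀1 : 1 ≤ R₀ := Nat.ceil_pos.mpr (by positivity)
  have hR₀U : (R₀ : ℝ) ≤ L ^ (B + 1) := by
    have h5 := (Nat.ceil_lt_add_one (by positivity : 0 ≤ L ^ B)).le
    have h6 : (1 : ℝ) ≤ L ^ B := one_le_pow₀ (by linarith)
    have h7 : L ^ (B + 1) = L ^ B * L := pow_succ _ _
    rw [h7]
    nlinarith
  have hQN : ⌊(N : ℝ) ^ (104 / 125 : ℝ)⌋₊ ≤ N := by
    have h5 : (N : ℝ) ^ (104 / 125 : ℝ) ≤ (N : ℝ) ^ (1 : ℝ) := by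
      refine Real.rpow_le_rpow_of_exponent_le ?_ (by norm_num)
      exact_mod_cast hN0
    rw [Real.rpow_one] at h5
    exact Nat.floor_le_of_le h5
  have hpt : ∀ m ∈ Mo ((N : ℝ) ^ (104 / 125 : ℝ)),
      |∑ j ∈ Z3 N with j ≡ r m [MOD 30 * m], mnf C N j * fV N V j -
        1 / (Nat.totient (30 * m) : ℝ) * ∑ j ∈ Z3 N, mnf C N j * fV N V j| ≤
      |∑ j ∈ Z3 N, mnf C N j * fV N V j * KK R₀ (30 * m) (r m) j| +
        #V * (1 / (Nat.totient (30 * m) : ℝ) * ((N : ℝ) ^ 2 / L ^ (A + 3))) := by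
    intro m hm
    unfold Mo at hm
    rw [mem_filter, mem_Icc] at hm
    obtain ⟨⟨hm0, hmQ⟩, hm30⟩ := hm
    have hcop := BVE_coprime r hr m hm0 hm30
    have h30m : 0 < 30 * m := by omega
    have hle2 : 30 * m ≤ 64 * N ^ 3 := by
      have h5 : N ≤ N ^ 3 := Nat.le_self_pow (by norm_num) N
      have h6 := hmQ.trans hQN
      omega
    have e1 : ∑ j ∈ Z3 N with j ≡ r m [MOD 30 * m], mnf C N j * fV N V j =
        ∑ j ∈ Z3 N, mnf C N j * fV N V j * KK R₀ (30 * m) (r m) j +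
          ∑ j ∈ Z3 N, mnf C N j * fV N V j * ks R₀ (30 * m) (r m) j := by
      rw [← sum_add_distrib, sum_filter]
      refine sum_congr rfl fun j _ => ?_
      unfold KK
      split_ifs
      · ring
      · ring
    rw [e1, add_sub_assoc]
    refine (abs_add_le _ _).trans (add_le_add le_rfl ?_)
    exact BVE_small N C R₀ (30 * m) (r m) V _ fun v hv =>
      H2 N hN2 v (hV.1 v hv) (30 * m) (r m) R₀ h30m hle2 hcop hR₀1 hR₀U
  refine (sum_le_sum hpt).trans ?_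
  rw [sum_add_distrib, ← mul_sum, ← sum_mul]
  have hA3 : (#V : ℝ) * ((∑ m ∈ Mo ((N : ℝ) ^ (104 / 125 : ℝ)), 1 / (Nat.totient (30 * m) : ℝ)) *
      ((N : ℝ) ^ 2 / L ^ (A + 3))) ≤ #V * (6 * L ^ 2 * ((N : ℝ) ^ 2 / L ^ (A + 3))) :=
    mul_le_mul_of_nonneg_left (mul_le_mul_of_nonneg_right hinv (by positivity)) (by positivity)
  refine (add_le_add HA hA3).trans ?_
  have e2 : (#V : ℝ) * (6 * L ^ 2 * ((N : ℝ) ^ 2 / L ^ (A + 3))) =
      6 / L * (#V * (N : ℝ) ^ 2 / L ^ A) := by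
    rw [pow_add]
    field_simp
  have e3 : (#V : ℝ) * (N : ℝ) ^ 2 / L ^ (A + 1) = 1 / L * (#V * (N : ℝ) ^ 2 / L ^ A) := by
    rw [pow_add]
    field_simp
  rw [e2, e3, ← add_mul]
  have h8 : 1 / L + 6 / L ≤ 1 := by
    rw [← add_div, div_le_one hL0]
    linarith
  calc (1 / L + 6 / L) * (#V * (N : ℝ) ^ 2 / L ^ A) ≤ 1 * (#V * (N : ℝ) ^ 2 / L ^ A) :=
        mul_le_mul_of_nonneg_right h8 (by positivity)
    _ = #V * (N : ℝ) ^ 2 / L ^ A := one_mul _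

end Pool.Agent.XE
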