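import Pool.Agent.helper15.XE.SpecS

/-! Row xe:SCN (port of helper98/SK/SCN.lean) -/

set_option autoImplicit false

namespace Pool.Agent.XE

open Finset ArithmeticFunction MeasureTheory
open Pool.Agent.EC (tri TL wt edg)
open Pool.Agent.CH (nit DPb Tset)
open Pool.Agent.SK (uu zN YN gj tr0)
open GD (ks)

private theorem SCN_Wk (r : ℕ) (a b : Fin r → ℝ) (h : r = 0 ∨ AdX a b) : Wk a b := by
  rcases h with rfl | h
  · refine ⟨fun i => i.elim0, ?_⟩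
    rw [Finset.univ_eq_empty, Finset.sum_empty]
    norm_num
  · exact ⟨fun i => (h.1 i).1, h.2.2.1⟩

theorem SCN (h1 : SPT_stmt) (h2 : WID_stmt) : SCN_stmt := by
  intro r a b hab A Bq
  obtain ⟨B, hB⟩ := h1 r a b hab (A + 1) Bq
  obtain ⟨N₁, k1⟩ := hB B le_rfl
  obtain ⟨N₂, k2⟩ := h2 r a b (SCN_Wk r a b hab) (A + B + 1) Bq
  refine ⟨max N₁ (max N₂ ⌈Real.exp 2⌉₊), ?_⟩
  intro N hN v hv q hq1 hq χ hχ
  have hN1 : N₁ ≤ N := (le_max_left _ _).trans hN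
  have hN2 : N₂ ≤ N := ((le_max_left _ _).trans (le_max_right _ _)).trans hN
  have hN3 : Real.exp 2 ≤ (N : ℝ) :=
    (Nat.le_ceil _).trans (by exact_mod_cast ((le_max_right _ _).trans (le_max_right _ _)).trans hN)
  have hN0 : (0 : ℝ) < N := (Real.exp_pos 2).trans_le hN3
  obtain ⟨L, hLd⟩ : ∃ L : ℝ, L = Real.log N := ⟨_, rfl⟩
  have hL2 : 2 ≤ L := by
    rw [hLd, Real.le_log_iff_exp_le hN0]
    exact hN3
  have hL0 : 0 < L := by linarith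
  have g1 := k1 N hN1 v hv q hq1 hq χ
  have g2 := k2 N hN2 v (1 / Real.log N ^ B) (by rw [← hLd]; positivity) q hq1 hq χ hχ
  rw [← hLd] at g1 g2 ⊢
  have e : ∑ m ∈ Ioc 0 (64 * N ^ 3), ((TL N a b m : ℝ) : ℂ) * χ m *
        ((tr0 v (1 / (N : ℝ)) (Real.log m) : ℝ) : ℂ) =
      ∑ m ∈ Ioc 0 (64 * N ^ 3), ((TL N a b m : ℝ) : ℂ) * χ m * gj B N v m +
      ((L ^ B / N : ℝ) : ℂ) * ∑ m ∈ Ioc 0 (64 * N ^ 3), ((TL N a b m : ℝ) : ℂ) * χ m *
        ((tr0 v (1 / L ^ B) (Real.log m) : ℝ) : ℂ) := by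
    rw [mul_sum, ← sum_add_distrib]
    apply sum_congr rfl
    intro m _
    have e1 : gj B N v m = ((tr0 v (1 / (N : ℝ)) (Real.log m) : ℝ) : ℂ) -
        ((L ^ B / N : ℝ) : ℂ) * ((tr0 v (1 / L ^ B) (Real.log m) : ℝ) : ℂ) := by
      unfold gj SK.g0
      rw [← hLd]
      push_cast
      ring
    rw [e1]
    ring
  rw [e]
  have hLA : 0 < L ^ A := by positivity
  refine (norm_add_le _ _).trans ?_
  rw [norm_mul, Complex.norm_real, Real.norm_of_nonneg (by positivity)]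
  have g3 : L ^ B / N * ‖∑ m ∈ Ioc 0 (64 * N ^ 3), ((TL N a b m : ℝ) : ℂ) * χ m *
        ((tr0 v (1 / L ^ B) (Real.log m) : ℝ) : ℂ)‖ ≤ (N : ℝ) ^ 2 / L ^ (A + 1) := by
    refine (mul_le_mul_of_nonneg_left g2 (by positivity)).trans (le_of_eq ?_)
    have : L ^ (A + B + 1) = L ^ (A + 1) * L ^ B := by ring
    rw [this]
    field_simp
  have g4 : (N : ℝ) ^ 2 / L ^ (A + 1) + (N : ℝ) ^ 2 / L ^ (A + 1) ≤ (N : ℝ) ^ 2 / L ^ A := by
    rw [← add_div, div_le_div_iff₀ (by positivity) hLA]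
    have e2 : L ^ (A + 1) = L ^ A * L := pow_succ _ _
    rw [e2]
    have h5 : 2 * ((N : ℝ) ^ 2 * L ^ A) ≤ L * ((N : ℝ) ^ 2 * L ^ A) :=
      mul_le_mul_of_nonneg_right hL2 (by positivity)
    linarith
  linarith

end Pool.Agent.XE
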