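import Pool.Agent.helper15.XE.SpecC

/-!
# Row xe:TLM (port of helper73/EC/TLM.lean)
-/

set_option autoImplicit false

namespace Pool.Agent.XE

open Finset ArithmeticFunction
open Pool.Agent.EC (tri TL wt mt Adm edg mnf tI tII tyI cvl KK yN UN TUP TLe GdT)
open Pool.Agent.CH (rgh Mo ClP ClB)
open GD (kp ks)

private theorem TLM_win {N m : ℕ} (hN : 64 ≤ N) (hm : m ∈ Z3 N) (hm1 : N ^ 3 < m) : N ^ 3 < m ∧ m ≤ N ^ 4 := by
  unfold Z3 at hm
  rw [Finset.mem_Ioc] at hm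
  refine ⟨hm1, hm.2.trans ?_⟩
  calc 64 * N ^ 3 ≤ N * N ^ 3 := Nat.mul_le_mul_right _ hN
    _ = N ^ 4 := by ring

private theorem TLM_core (r : ℕ) (a b : Fin r → ℝ) (κ : ℝ) (hκ : 0 < κ) (hκa : ∀ i, κ < a i)
    (hκb : κ < 3 - ∑ i, b i) (N : ℕ) (hN : 64 ≤ N) (m : ℕ) (hm : m ∈ Z3 N) (hm3 : N ^ 3 < m) (p : Fin r → ℕ)
    (hp : p ∈ TUP N a b m) (hpr : (m / ∏ i, p i).Prime) : rgh ((N : ℝ) ^ κ) m := by
  obtain ⟨hm1, hm2⟩ := TLM_win hN hm hm3
  have hN1 : (1 : ℝ) < N := by exact_mod_cast (by omega : 1 < N)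
  have hN0 : (0 : ℝ) < N := by linarith
  unfold TUP at hp
  rw [Finset.mem_filter, Fintype.mem_piFinset] at hp
  obtain ⟨hp1, hp2, hp3⟩ := hp
  refine ⟨by omega, ?_⟩
  intro q hq hqm
  obtain ⟨n, hn⟩ := hp3
  have hprodpos : 0 < ∏ i, p i := Finset.prod_pos fun i _ => (Nat.prime_of_mem_primeFactors (hp1 i)).pos
  have hdiv : m / ∏ i, p i = n := by rw [hn]; exact Nat.mul_div_cancel_left n hprodpos
  rw [hdiv] at hpr
  rw [hn] at hqm
  rcases (Nat.Prime.dvd_mul hq).1 hqm with h | h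
  · obtain ⟨i, -, hi⟩ := (hq.prime.dvd_finsetProd_iff _).1 h
    have hqi : q = p i := (Nat.prime_dvd_prime_iff_eq hq (Nat.prime_of_mem_primeFactors (hp1 i))).1 hi
    rw [hqi]
    exact lt_of_lt_of_le (Real.rpow_lt_rpow_of_exponent_lt hN1 (hκa i)) (hp2 i).1
  · have hqn : q = n := (Nat.prime_dvd_prime_iff_eq hq hpr).1 h
    rw [hqn]
    have h1 : (∏ i, (p i : ℝ)) ≤ (N : ℝ) ^ (∑ i, b i) := by
      rw [Real.rpow_sum_of_pos hN0]
      exact Finset.prod_le_prod (fun i _ => Nat.cast_nonneg _) fun i _ => (hp2 i).2.le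
    have h2 : ((m : ℕ) : ℝ) = (∏ i, (p i : ℝ)) * n := by
      rw [hn]; push_cast; ring
    have h3 : (N : ℝ) ^ (3 : ℝ) < m := by
      have : ((N ^ 3 : ℕ) : ℝ) < (m : ℝ) := by exact_mod_cast hm1
      push_cast at this
      rw [show (3 : ℝ) = ((3 : ℕ) : ℝ) by norm_num, Real.rpow_natCast]
      exact this
    have h4 : (N : ℝ) ^ (3 : ℝ) = (N : ℝ) ^ (∑ i, b i) * (N : ℝ) ^ (3 - ∑ i, b i) := by
      rw [← Real.rpow_add hN0]
      congr 1
      ring
    have h5 : 0 < (N : ℝ) ^ (∑ i, b i) := Real.rpow_pos_of_pos hN0 _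
    have h6 : (N : ℝ) ^ (∑ i, b i) * (N : ℝ) ^ (3 - ∑ i, b i) < (N : ℝ) ^ (∑ i, b i) * n := by
      rw [← h4]
      refine h3.trans_le ?_
      rw [h2]
      exact mul_le_mul_of_nonneg_right h1 (Nat.cast_nonneg _)
    have h7 : (N : ℝ) ^ (3 - ∑ i, b i) < n := lt_of_mul_lt_mul_left h6 h5.le
    exact (Real.rpow_lt_rpow_of_exponent_lt hN1 hκb).trans h7

private theorem TLM_card (κ : ℝ) (hκ : 0 < κ) (N m : ℕ) (hN : 64 ≤ N) (hm0 : m ≠ 0) (hm : m ≤ N ^ 4)
    (h : rgh ((N : ℝ) ^ κ) m) : (#m.primeFactors : ℝ) ≤ 4 / κ := by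
  have hN1 : (1 : ℝ) < N := by exact_mod_cast (by omega : 1 < N)
  have hN0 : (0 : ℝ) < N := by linarith
  have h1 : ((N : ℝ) ^ κ) ^ #m.primeFactors ≤ ∏ q ∈ m.primeFactors, (q : ℝ) := by
    rw [← Finset.prod_const]
    exact Finset.prod_le_prod (fun _ _ => (Real.rpow_pos_of_pos hN0 _).le) fun q hq =>
      (h.2 q (Nat.prime_of_mem_primeFactors hq) (Nat.dvd_of_mem_primeFactors hq)).le
  have h2 : ∏ q ∈ m.primeFactors, q ≤ m :=
    Nat.le_of_dvd (Nat.pos_of_ne_zero hm0) (Nat.prod_primeFactors_dvd m)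
  have h3 : (∏ q ∈ m.primeFactors, (q : ℝ)) ≤ (N : ℝ) ^ (4 : ℝ) := by
    have : ((∏ q ∈ m.primeFactors, q : ℕ) : ℝ) ≤ ((N ^ 4 : ℕ) : ℝ) := by exact_mod_cast h2.trans hm
    push_cast at this
    rw [show (4 : ℝ) = ((4 : ℕ) : ℝ) by norm_num, Real.rpow_natCast]
    exact this
  have h4 : (N : ℝ) ^ (κ * #m.primeFactors) ≤ (N : ℝ) ^ (4 : ℝ) := by
    rw [Real.rpow_mul hN0.le, Real.rpow_natCast]
    exact h1.trans h3
  rw [Real.rpow_le_rpow_left_iff hN1] at h4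
  rw [le_div_iff₀ hκ]
  linarith

theorem TLM : TLM_stmt := by
  classical
  intro r a b hA
  obtain ⟨hab, -, hsum, hr'⟩ := hA
  have hr : 3 ≤ r := by
    rcases hr' with h | h
    · omega
    · exact h.1.ge
  haveI : Nonempty (Fin r) := ⟨⟨0, by omega⟩⟩
  obtain ⟨i0, hi0⟩ := Finite.exists_min a
  have ha0 : 0 < a i0 := (hab i0).1
  set κ : ℝ := min (min (a i0 / 2) ((3 - ∑ i, b i) / 2)) (1 / 20) with hκdef
  have hκ : 0 < κ := by
    rw [hκdef, lt_min_iff, lt_min_iff]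
    refine ⟨⟨by linarith, by linarith⟩, by norm_num⟩
  have hκ1 : κ ≤ a i0 / 2 := (min_le_left _ _).trans (min_le_left _ _)
  have hκ2 : κ ≤ (3 - ∑ i, b i) / 2 := (min_le_left _ _).trans (min_le_right _ _)
  have hκ3 : κ ≤ 1 / 20 := min_le_right _ _
  have hκa : ∀ i, κ < a i := fun i => by have := hi0 i; linarith
  have hκb : κ < 3 - ∑ i, b i := by linarith
  clear_value κ
  refine ⟨κ, 4 * (4 / κ) ^ r, hκ, hκ3, by positivity, 64, ?_⟩
  intro N hN δ m hm hm3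
  obtain ⟨hm1, hm2⟩ := TLM_win hN hm hm3
  have hm0 : m ≠ 0 := by omega
  have hN1 : (1 : ℝ) < N := by exact_mod_cast (by omega : 1 < N)
  have hN0 : (0 : ℝ) < N := by linarith
  have hlog : 0 < Real.log N := Real.log_pos hN1
  unfold TLe
  set T := (TUP N a b m).filter (fun p => ∃ i, (N : ℝ) ^ (1 - 3 * δ) ≤ (p i : ℝ) ∧
    (p i : ℝ) < (N : ℝ) ^ (1 + 2 * δ)) with hT
  rw [← Finset.sum_filter_add_sum_filter_not T (fun p => (m / ∏ i, p i).Prime)]
  apply add_le_add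
  · by_cases hemp : T.filter (fun p => (m / ∏ i, p i).Prime) = ∅
    · rw [hemp, Finset.sum_empty]
      positivity
    · obtain ⟨p, hp⟩ := Finset.nonempty_iff_ne_empty.2 hemp
      rw [Finset.mem_filter, hT, Finset.mem_filter] at hp
      obtain ⟨⟨hp1, i, hi⟩, hp2⟩ := hp
      have hrgh := TLM_core r a b κ hκ hκa hκb N hN m hm hm3 p hp1 hp2
      have hpi : p i ∈ m.primeFactors := by
        unfold TUP at hp1
        rw [Finset.mem_filter, Fintype.mem_piFinset] at hp1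
        exact hp1.1 i
      have hcard1 : (1 : ℝ) ≤ (#(m.primeFactors.filter fun q : ℕ => ((N : ℝ) ^ (1 - 3 * δ) ≤ (q : ℝ) ∧
          (q : ℝ) < (N : ℝ) ^ (1 + 2 * δ)) ∧ rgh ((N : ℝ) ^ κ) m) : ℝ) := by
        have : 0 < #(m.primeFactors.filter fun q : ℕ => ((N : ℝ) ^ (1 - 3 * δ) ≤ (q : ℝ) ∧
          (q : ℝ) < (N : ℝ) ^ (1 + 2 * δ)) ∧ rgh ((N : ℝ) ^ κ) m) := by
          apply Finset.card_pos.2
          exact ⟨p i, Finset.mem_filter.2 ⟨hpi, hi, hrgh⟩⟩
        exact_mod_cast this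
      have hpf := TLM_card κ hκ N m hN hm0 hm2 hrgh
      have hcardT : (#(T.filter (fun p => (m / ∏ i, p i).Prime)) : ℝ) ≤ (4 / κ) ^ r := by
        have h1 : #(T.filter (fun p => (m / ∏ i, p i).Prime)) ≤ #m.primeFactors ^ r := by
          have h2 : T.filter (fun p => (m / ∏ i, p i).Prime) ⊆
              Fintype.piFinset fun _ : Fin r => m.primeFactors := by
            refine (Finset.filter_subset _ _).trans ((Finset.filter_subset _ _).trans ?_)
            unfold TUP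
            exact Finset.filter_subset _ _
          refine (Finset.card_le_card h2).trans (le_of_eq ?_)
          rw [Fintype.card_piFinset]
          simp
        have h3 : (#(T.filter (fun p => (m / ∏ i, p i).Prime)) : ℝ) ≤ (#m.primeFactors : ℝ) ^ r := by
          exact_mod_cast h1
        exact h3.trans (pow_le_pow_left₀ (Nat.cast_nonneg _) hpf r)
      have hterm : ∀ p ∈ T.filter (fun p => (m / ∏ i, p i).Prime),
          vonMangoldt (m / ∏ i, p i) ≤ 4 * Real.log N := by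
        intro p' hp'
        refine vonMangoldt_le_log.trans ?_
        have h4 : 0 < m / ∏ i, p' i := (Finset.mem_filter.1 hp').2.pos
        have h5 : ((m / ∏ i, p' i : ℕ) : ℝ) ≤ (N : ℝ) ^ 4 := by
          have : m / ∏ i, p' i ≤ N ^ 4 := (Nat.div_le_self _ _).trans hm2
          exact_mod_cast this
        have h6 : Real.log ((m / ∏ i, p' i : ℕ) : ℝ) ≤ Real.log ((N : ℝ) ^ 4) :=
          Real.log_le_log (by exact_mod_cast h4) h5
        rw [Real.log_pow] at h6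
        exact_mod_cast h6
      have h7 : ∑ p ∈ T.filter (fun p => (m / ∏ i, p i).Prime), vonMangoldt (m / ∏ i, p i) ≤
          #(T.filter (fun p => (m / ∏ i, p i).Prime)) • (4 * Real.log N) :=
        Finset.sum_le_card_nsmul _ _ _ hterm
      rw [nsmul_eq_mul] at h7
      have h8 : (#(T.filter (fun p => (m / ∏ i, p i).Prime)) : ℝ) * (4 * Real.log N) ≤
          (4 / κ) ^ r * (4 * Real.log N) := mul_le_mul_of_nonneg_right hcardT (by positivity)
      have h9 : (4 / κ) ^ r * (4 * Real.log N) = 4 * (4 / κ) ^ r * Real.log N * 1 := by ring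
      rw [h9] at h8
      exact (h7.trans h8).trans (mul_le_mul_of_nonneg_left hcard1 (by positivity))
  · apply Finset.sum_le_sum_of_subset_of_nonneg
    · intro p hp
      rw [Finset.mem_filter] at hp ⊢
      exact ⟨(Finset.mem_filter.1 hp.1).1, hp.2⟩
    · intro p _ _
      exact vonMangoldt_nonneg

end Pool.Agent.XE
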